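import Pool.Agent.H101Z.Claw3

set_option autoImplicit false

namespace Pool.Agent.Results.MP_0eda79_ag.ATripod

open MvPolynomial

/-- Index set of the Fourier coordinates for the tripod: triples of group elements, one for each
leaf, with sum zero. -/
abbrev Socket (G : Type) [AddCommGroup G] : Type := {g : Fin 3 → G // ∑ i, g i = 0}

/-- The toric ideal of the group-based model on the tripod: the kernel of the monomial map which
sends `q_g` to the product over the three edges `i` of the parameters `a^i_(g i)`. -/
noncomputable def toricIdeal (G : Type) [AddCommGroup G] : Ideal (MvPolynomial (Socket G) ℂ) :=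
  RingHom.ker (aeval (R := ℂ)
    (fun g : Socket G => ∏ i : Fin 3, (X (i, g.1 i) : MvPolynomial (Fin 3 × G) ℂ)))

/-- The ideal generated by the homogeneous elements of `I` of degree exactly `d`. -/
noncomputable def degreePart {σ : Type} (I : Ideal (MvPolynomial σ ℂ)) (d : ℕ) :
    Ideal (MvPolynomial σ ℂ) :=
  Ideal.span {p | p ∈ I ∧ p.IsHomogeneous d}

/-- The saturation of `J` with respect to the irrelevant ideal generated by all the variables. -/
noncomputable def saturation {σ : Type} (J : Ideal (MvPolynomial σ ℂ)) :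
    Set (MvPolynomial σ ℂ) :=
  {f | ∃ k : ℕ, ∀ h ∈ (Ideal.span (Set.range (X : σ → MvPolynomial σ ℂ))) ^ k, h * f ∈ J}

/-- For the tripod and a suitable finite abelian group `G`, the saturation of the ideal generated by
the degree `|G|` part of the toric ideal is strictly smaller than the toric ideal. -/
theorem result : ∃ (G : Type) (_ : AddCommGroup G) (_ : Fintype G),
    saturation (degreePart (toricIdeal G) (Fintype.card G)) ⊂
      (toricIdeal G : Set (MvPolynomial (Socket G) ℂ)) := by
  obtain ⟨z, f, x, hx, hf, hzf, hq⟩ := Pool.Agent.H101Z.Claw3.main 7 (by norm_num)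
    (σ := Socket (Pool.Agent.H101Z.Claw3.G 7))
    (fun s => s.1) Subtype.val_injective
    (fun a => by rw [← Fin.sum_univ_three]; exact a.2)
    (fun g hg => ⟨⟨g, by rw [Fin.sum_univ_three]; exact hg⟩, rfl⟩)
  refine ⟨Pool.Agent.H101Z.Claw3.G 7, inferInstance, inferInstance, ?_, ?_⟩
  · rintro p ⟨k, hk⟩
    have h1 := hk (X x ^ k) (Ideal.pow_mem_pow (Ideal.subset_span (Set.mem_range_self x)) k)
    have h2 : X x ^ k * p ∈ toricIdeal (Pool.Agent.H101Z.Claw3.G 7) :=
      Ideal.span_le.mpr (fun _ h => h.1) h1
    unfold toricIdeal at h2 ⊢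
    rw [RingHom.mem_ker, map_mul, map_pow, aeval_X] at h2
    refine (mul_eq_zero.mp h2).resolve_left (pow_ne_zero _ ?_)
    exact Finset.prod_ne_zero_iff.mpr fun i _ => X_ne_zero _
  · intro hsub
    obtain ⟨k, hk⟩ := hsub (show f ∈ toricIdeal (Pool.Agent.H101Z.Claw3.G 7) from hf)
    have h1 := hk (X x ^ k) (Ideal.pow_mem_pow (Ideal.subset_span (Set.mem_range_self x)) k)
    have h2 : X x ^ k * f ∈ RingHom.ker (eval z) := by
      refine Ideal.span_le.mpr ?_ h1
      rintro q ⟨hq1, hq2⟩
      have h3 := hq2.totalDegree_le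
      rw [Pool.Agent.H101Z.Claw3.card_G] at h3
      exact hq q hq1 (lt_of_le_of_lt h3 (by norm_num))
    rw [RingHom.mem_ker, map_mul, map_pow, eval_X, hx, hzf] at h2
    simp at h2

end Pool.Agent.Results.MP_0eda79_ag.ATripod
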